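import Mathlib

set_option autoImplicit false

/-!
Two-dimensional shellable simplicial complexes on `n ≥ 8` vertices, with complete one-skeleton,
whose Alexander dual is not `(n - 4)`-chordal.
-/

open Finset

namespace Pool.Agent.Results.MP_14e604_al.DimensionTwo

variable {n : ℕ}

/-- A simplicial complex on the vertex set `Fin n`: a family of subsets closed under taking
subsets. -/
def IsComplex (Γ : Set (Finset (Fin n))) : Prop :=
  ∀ F ∈ Γ, ∀ G : Finset (Fin n), G ⊆ F → G ∈ Γ

/-- The Alexander dual. -/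
def dual (Γ : Set (Finset (Fin n))) : Set (Finset (Fin n)) :=
  {F | Fᶜ ∉ Γ}

/-- `F` is a facet of `Γ`: a face contained in no other face. -/
def IsFacet (Γ : Set (Finset (Fin n))) (F : Finset (Fin n)) : Prop :=
  F ∈ Γ ∧ ∀ G ∈ Γ, F ⊆ G → G = F

/-- The `d`-closure of `Γ`. -/
def closure (d : ℕ) (Γ : Set (Finset (Fin n))) : Set (Finset (Fin n)) :=
  {F | F.card ≤ d ∨ (F.card = d + 1 ∧ F ∈ Γ) ∨
    (d + 1 < F.card ∧ ∀ G : Finset (Fin n), G ⊆ F → G.card = d + 1 → G ∈ Γ)}

/-- `E` is a simplicial face of `Δ` (with respect to `d`): a face with `d` elements lying in exactly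
one facet of `Δ`. -/
def Simplicial (d : ℕ) (Δ : Set (Finset (Fin n))) (E : Finset (Fin n)) : Prop :=
  E ∈ Δ ∧ E.card = d ∧ ∃! F : Finset (Fin n), IsFacet Δ F ∧ E ⊆ F

/-- The deletion of `E` from `Δ`: all faces not containing `E`, together with `E`. -/
def deletion (Δ : Set (Finset (Fin n))) (E : Finset (Fin n)) : Set (Finset (Fin n)) :=
  {F | (F ∈ Δ ∧ ¬ E ⊆ F) ∨ F = E}

/-- One simplicial deletion leads from `Δ` to `Δ'`. -/
def Step (d : ℕ) (Δ Δ' : Set (Finset (Fin n))) : Prop :=
  ∃ E : Finset (Fin n), Simplicial d Δ E ∧ Δ' = deletion Δ E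

/-- `Γ` is `d`-chordal: finitely many simplicial deletions lead from the `d`-closure of `Γ` to the
complex of all sets with at most `d` elements. -/
def DChordal (d : ℕ) (Γ : Set (Finset (Fin n))) : Prop :=
  Relation.ReflTransGen (Step d) (closure d Γ) {F | F.card ≤ d}

/-- The complex generated by a list of sets. -/
def gen (L : List (Finset (Fin n))) : Set (Finset (Fin n)) :=
  {F | ∃ G ∈ L, F ⊆ G}

/-- `Γ` is shellable: its facets can be listed, without repetition, as `L[0], L[1], …` so that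
for each `i > 0` the complex `⟨L[0], …, L[i-1]⟩ ∩ ⟨L[i]⟩` is pure of dimension `dim L[i] - 1`,
that is, each of its facets has one element less than `L[i]`. -/
def Shellable (Γ : Set (Finset (Fin n))) : Prop :=
  ∃ L : List (Finset (Fin n)), L.Nodup ∧ (∀ F : Finset (Fin n), F ∈ L ↔ IsFacet Γ F) ∧
    ∀ (i : ℕ) (hi : i < L.length), 0 < i → ∀ F : Finset (Fin n),
      IsFacet (gen (L.take i) ∩ gen [L[i]]) F → F.card + 1 = (L[i]).card

/-! ### Reversed shelling lists -/

/-- `L`, read backwards, is a shelling. -/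
def Good : List (Finset (Fin n)) → Prop
  | [] => True
  | t :: L => Good L ∧ ∀ G ∈ L, ∃ v ∈ t, v ∉ G ∧ ∃ H ∈ L, t.erase v ⊆ H

lemma Good.nodup : ∀ {L : List (Finset (Fin n))}, Good L → L.Nodup
  | [], _ => List.nodup_nil
  | t :: L, h => by
    rw [List.nodup_cons]
    refine ⟨fun ht => ?_, h.1.nodup⟩
    obtain ⟨v, hv, hv', -⟩ := h.2 t ht
    exact hv' hv

lemma Good.shell : ∀ {L : List (Finset (Fin n))}, Good L →
    ∀ (i : ℕ) (hi : i < L.reverse.length), 0 < i → ∀ F : Finset (Fin n),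
      IsFacet (gen (L.reverse.take i) ∩ gen [L.reverse[i]]) F →
        F.card + 1 = (L.reverse[i]).card
  | [], _, i, hi, _, _, _ => by simp at hi
  | t :: L, h, i, hi, hpos, F, hF => by
    have hlen : (t :: L).reverse = L.reverse ++ [t] := List.reverse_cons
    rcases Nat.lt_or_ge i L.reverse.length with hlt | hge
    · have e1 : (t :: L).reverse.take i = L.reverse.take i := by
        rw [hlen, List.take_append_of_le_length hlt.le]
      have e2 : (t :: L).reverse[i] = L.reverse[i] := by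
        simp only [hlen]
        exact List.getElem_append_left hlt
      rw [e1, e2] at hF
      rw [e2]
      exact Good.shell h.1 i hlt hpos F hF
    · have hi' : i = L.reverse.length := by
        simp only [hlen, List.length_append, List.length_singleton] at hi
        omega
      subst hi'
      have e1 : (t :: L).reverse.take L.reverse.length = L.reverse := by
        rw [hlen, List.take_append_of_le_length le_rfl, List.take_length]
      have e2 : (t :: L).reverse[L.reverse.length] = t := by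
        simp only [hlen]
        rw [List.getElem_append_right le_rfl]
        simp
      rw [e1, e2] at hF
      rw [e2]
      obtain ⟨⟨⟨G, hG, hFG⟩, ⟨G', hG', hFG'⟩⟩, hmax⟩ := hF
      rw [List.mem_singleton] at hG'
      subst hG'
      rw [List.mem_reverse] at hG
      obtain ⟨v, hv, hvG, H, hH, hsub⟩ := h.2 G hG
      have hF' : F ⊆ G'.erase v := fun w hw => by
        rw [Finset.mem_erase]
        exact ⟨fun e => hvG (hFG (e ▸ hw)), hFG' hw⟩
      have := hmax (G'.erase v) ⟨⟨H, List.mem_reverse.2 hH, hsub⟩,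
        ⟨G', List.mem_singleton.2 rfl, Finset.erase_subset _ _⟩⟩ hF'
      rw [← this]
      exact Finset.card_erase_add_one hv

/-! ### The invariant -/

/-- The properties of the list of facets. -/
structure P (L : List (Finset (Fin n))) : Prop where
  card : ∀ t ∈ L, t.card = 3
  cover : ∀ x y : Fin n, ∃ t ∈ L, x ∈ t ∧ y ∈ t
  four : ∀ a b c d : Fin n, a ≠ b → a ≠ c → b ≠ c → d ≠ a → d ≠ b → d ≠ c →
    ({a, b, c} : Finset (Fin n)) ∉ L →
      ({a, b, d} : Finset (Fin n)) ∉ L ∨ ({a, c, d} : Finset (Fin n)) ∉ L ∨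
        ({b, c, d} : Finset (Fin n)) ∉ L
  miss : ∃ N : Finset (Fin n), N.card = 3 ∧ N ∉ L
  good : Good L

lemma P.cover' {L : List (Finset (Fin n))} (h : P L) (hn : 0 < n) (C : Finset (Fin n))
    (hC : C.card ≤ 2) : ∃ G ∈ L, C ⊆ G := by
  have h3 : C.card = 0 ∨ C.card = 1 ∨ C.card = 2 := by omega
  rcases h3 with h0 | h1 | h2
  · obtain ⟨t, ht, -⟩ := h.cover ⟨0, hn⟩ ⟨0, hn⟩
    exact ⟨t, ht, by rw [Finset.card_eq_zero.1 h0]; exact Finset.empty_subset _⟩
  · obtain ⟨x, rfl⟩ := Finset.card_eq_one.1 h1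
    obtain ⟨t, ht, hx, -⟩ := h.cover x x
    exact ⟨t, ht, Finset.singleton_subset_iff.2 hx⟩
  · obtain ⟨x, y, -, rfl⟩ := Finset.card_eq_two.1 h2
    obtain ⟨t, ht, hx, hy⟩ := h.cover x y
    refine ⟨t, ht, ?_⟩
    intro w hw
    rcases Finset.mem_insert.1 hw with rfl | hw
    · exact hx
    · rw [Finset.mem_singleton.1 hw]
      exact hy

lemma P.facet_iff {L : List (Finset (Fin n))} (h : P L) (F : Finset (Fin n)) :
    F ∈ L ↔ IsFacet (gen L) F := by
  constructor
  · intro hF
    refine ⟨⟨F, hF, Finset.Subset.refl F⟩, ?_⟩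
    rintro G ⟨H, hH, hGH⟩ hFG
    have h : F = H := Finset.eq_of_subset_of_card_le (hFG.trans hGH) (by
      rw [h.card F hF, h.card H hH])
    subst h
    exact Finset.Subset.antisymm hGH hFG
  · rintro ⟨⟨H, hH, hFH⟩, hmax⟩
    have h : H = F := hmax H ⟨H, hH, Finset.Subset.refl H⟩ hFH
    rwa [← h]

lemma P.shellable {L : List (Finset (Fin n))} (h : P L) : Shellable (gen L) :=
  ⟨L.reverse, List.nodup_reverse.2 h.good.nodup,
    fun F => by rw [List.mem_reverse]; exact h.facet_iff F, h.good.shell⟩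

/-! ### The dual -/

lemma P.mem_dual {L : List (Finset (Fin n))} (h : P L) {F : Finset (Fin n)}
    (hF : Fᶜ.card = 3) : F ∈ dual (gen L) ↔ Fᶜ ∉ L := by
  constructor
  · intro hd hL
    exact hd ⟨Fᶜ, hL, Finset.Subset.refl _⟩
  · rintro hL ⟨G, hG, hsub⟩
    have : Fᶜ = G := Finset.eq_of_subset_of_card_le hsub (by rw [hF, h.card G hG])
    exact hL (this ▸ hG)

lemma P.faces {L : List (Finset (Fin n))} (h : P L) (hn : 4 ≤ n) {F : Finset (Fin n)}
    (hF : F ∈ closure (n - 4) (dual (gen L))) :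
    F.card ≤ n - 4 ∨ (F.card = n - 3 ∧ Fᶜ ∉ L) := by
  have hcF : Fᶜ.card = n - F.card := by rw [Finset.card_compl, Fintype.card_fin]
  rcases hF with h1 | ⟨h2, h3⟩ | ⟨h4, h5⟩
  · exact Or.inl h1
  · exact Or.inr ⟨by omega, (h.mem_dual (by omega)).1 h3⟩
  · exfalso
    obtain ⟨G, hG, hsub⟩ := h.cover' (by omega) Fᶜ (by omega)
    have hG3 := h.card G hG
    have hGc : Gᶜ.card = n - 4 + 1 := by
      rw [Finset.card_compl, Fintype.card_fin]
      omega
    refine h5 Gᶜ ?_ hGc ?_
    · rw [← compl_compl F]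
      exact Finset.compl_subset_compl.2 hsub
    · rw [compl_compl]
      exact ⟨G, hG, Finset.Subset.refl _⟩

lemma P.mem_closure {L : List (Finset (Fin n))} (h : P L) (hn : 4 ≤ n) {N : Finset (Fin n)}
    (hN : N.card = 3) (hNL : N ∉ L) : Nᶜ ∈ closure (n - 4) (dual (gen L)) := by
  refine Or.inr (Or.inl ⟨?_, ?_⟩)
  · rw [Finset.card_compl, Fintype.card_fin]
    omega
  · rw [h.mem_dual (by rw [compl_compl]; exact hN), compl_compl]
    exact hNL

lemma P.facet_closure {L : List (Finset (Fin n))} (h : P L) (hn : 4 ≤ n) {N : Finset (Fin n)}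
    (hN : N.card = 3) (hNL : N ∉ L) : IsFacet (closure (n - 4) (dual (gen L))) Nᶜ := by
  refine ⟨h.mem_closure hn hN hNL, fun G hG hsub => ?_⟩
  have hc : Nᶜ.card = n - 3 := by
    rw [Finset.card_compl, Fintype.card_fin]
    omega
  refine (Finset.eq_of_subset_of_card_le hsub ?_).symm
  rcases h.faces hn hG with h1 | h1
  · omega
  · omega

lemma P.step_eq {L : List (Finset (Fin n))} (h : P L) (hn : 4 ≤ n) {Δ' : Set (Finset (Fin n))}
    (hs : Step (n - 4) (closure (n - 4) (dual (gen L))) Δ') :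
    Δ' = closure (n - 4) (dual (gen L)) := by
  obtain ⟨E, ⟨hE, hc, hu⟩, rfl⟩ := hs
  have key : ∀ F ∈ closure (n - 4) (dual (gen L)), E ⊆ F → F = E := by
    intro F hF hEF
    by_contra hne
    have hlt : E.card < F.card := by
      rcases Nat.lt_or_ge E.card F.card with h | h
      · exact h
      · exact absurd (Finset.eq_of_subset_of_card_le hEF h).symm hne
    obtain ⟨hF3, hFL⟩ : F.card = n - 3 ∧ Fᶜ ∉ L := by
      rcases h.faces hn hF with h1 | h1
      · omega
      · exact h1
    have hcF : Fᶜ.card = 3 := by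
      rw [Finset.card_compl, Fintype.card_fin]
      omega
    obtain ⟨d, hdF, hdE⟩ : ∃ d ∈ F, d ∉ E := by
      by_contra hcon
      push Not at hcon
      exact hne (Finset.Subset.antisymm hcon hEF)
    have hN : ∀ N : Finset (Fin n), N.card = 3 → N ∉ L → N ⊆ insert d Fᶜ → N = Fᶜ := by
      intro N hN3 hNL hNsub
      have e1 : E ⊆ Nᶜ := by
        intro w hw
        rw [Finset.mem_compl]
        intro hwN
        rcases Finset.mem_insert.1 (hNsub hwN) with h' | h'
        · exact hdE (h' ▸ hw)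
        · exact (Finset.mem_compl.1 h') (hEF hw)
      have e2 : E ⊆ (Fᶜ)ᶜ := by rw [compl_compl]; exact hEF
      have e3 := hu.unique ⟨h.facet_closure hn hN3 hNL, e1⟩ ⟨h.facet_closure hn hcF hFL, e2⟩
      exact compl_injective e3
    obtain ⟨a, b, c, hab, hac, hbc, habc⟩ := Finset.card_eq_three.1 hcF
    have hd : d ∉ Fᶜ := by
      rw [Finset.mem_compl]
      exact fun h => h hdF
    rw [habc] at hd hN hFL
    simp only [Finset.mem_insert, Finset.mem_singleton, not_or] at hd
    obtain ⟨hda, hdb, hdc⟩ := hd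
    rcases h.four a b c d hab hac hbc hda hdb hdc hFL with h1 | h1 | h1
    · have h2 := hN _ (Finset.card_eq_three.2 ⟨a, b, d, hab, (Ne.symm hda), (Ne.symm hdb), rfl⟩) h1 (by
        intro w hw
        simp only [Finset.mem_insert, Finset.mem_singleton] at hw ⊢
        tauto)
      have : d ∈ ({a, b, c} : Finset (Fin n)) := by
        rw [← h2]; simp
      simp only [Finset.mem_insert, Finset.mem_singleton] at this
      tauto
    · have h2 := hN _ (Finset.card_eq_three.2 ⟨a, c, d, hac, (Ne.symm hda), (Ne.symm hdc), rfl⟩) h1 (by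
        intro w hw
        simp only [Finset.mem_insert, Finset.mem_singleton] at hw ⊢
        tauto)
      have : d ∈ ({a, b, c} : Finset (Fin n)) := by
        rw [← h2]; simp
      simp only [Finset.mem_insert, Finset.mem_singleton] at this
      tauto
    · have h2 := hN _ (Finset.card_eq_three.2 ⟨b, c, d, hbc, (Ne.symm hdb), (Ne.symm hdc), rfl⟩) h1 (by
        intro w hw
        simp only [Finset.mem_insert, Finset.mem_singleton] at hw ⊢
        tauto)
      have : d ∈ ({a, b, c} : Finset (Fin n)) := by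
        rw [← h2]; simp
      simp only [Finset.mem_insert, Finset.mem_singleton] at this
      tauto
  ext F
  constructor
  · rintro (⟨hF, -⟩ | rfl)
    · exact hF
    · exact hE
  · intro hF
    by_cases h : E ⊆ F
    · exact Or.inr (key F hF h)
    · exact Or.inl ⟨hF, h⟩

lemma P.not_chordal {L : List (Finset (Fin n))} (h : P L) (hn : 4 ≤ n) :
    ¬ DChordal (n - 4) (dual (gen L)) := by
  intro hch
  have key : ∀ Δ : Set (Finset (Fin n)),
      Relation.ReflTransGen (Step (n - 4)) (closure (n - 4) (dual (gen L))) Δ →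
        Δ = closure (n - 4) (dual (gen L)) := by
    intro Δ hΔ
    induction hΔ with
    | refl => rfl
    | tail _ hs ih =>
      subst ih
      exact h.step_eq hn hs
  have h1 := key _ hch
  obtain ⟨N, hN3, hNL⟩ := h.miss
  have h2 : Nᶜ ∈ {F : Finset (Fin n) | F.card ≤ n - 4} := by
    rw [h1]
    exact h.mem_closure hn hN3 hNL
  have h3 : Nᶜ.card ≤ n - 4 := h2
  rw [Finset.card_compl, Fintype.card_fin] at h3
  omega

/-! ### One more vertex -/

/-- The map which identifies the new vertex with `c`. -/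
def proj (c : Fin n) (i : Fin (n + 1)) : Fin n :=
  Fin.lastCases (motive := fun _ => Fin n) c (fun j => j) i

lemma proj_last (c : Fin n) : proj c (Fin.last n) = c := by simp [proj]

lemma proj_castSucc (c j : Fin n) : proj c j.castSucc = j := by simp [proj]

lemma image_map (c : Fin n) (N : Finset (Fin n)) :
    (N.map Fin.castSuccEmb).image (proj c) = N := by
  ext v
  simp only [Finset.mem_image, Finset.mem_map]
  constructor
  · rintro ⟨_, ⟨w, hw, rfl⟩, rfl⟩
    rw [show (Fin.castSuccEmb w : Fin (n + 1)) = w.castSucc from rfl, proj_castSucc]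
    exact hw
  · intro hv
    exact ⟨_, ⟨v, hv, rfl⟩, proj_castSucc c v⟩

lemma Good.map : ∀ {L : List (Finset (Fin n))}, Good L →
    Good (L.map fun t => t.map (Fin.castSuccEmb : Fin n ↪ Fin (n + 1)))
  | [], _ => trivial
  | t :: L, h => by
    refine ⟨Good.map h.1, ?_⟩
    intro G hG
    obtain ⟨G0, hG0, rfl⟩ := List.mem_map.1 hG
    obtain ⟨v, hv, hvG, H, hH, hsub⟩ := h.2 G0 hG0
    refine ⟨Fin.castSuccEmb v, Finset.mem_map_of_mem _ hv, ?_, _,
      List.mem_map.2 ⟨H, hH, rfl⟩, ?_⟩
    · rwa [Finset.mem_map']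
    · rw [← Finset.map_erase]
      exact Finset.map_subset_map.2 hsub

lemma Good.star {L : List (Finset (Fin n))} (h : Good L) {u c : Fin n} (hu : ∀ G ∈ L, u ∉ G)
    (huc : u ≠ c) : ∀ X : List (Fin n), X.Nodup → c ∉ X → u ∉ X →
      (∀ x ∈ X, ∃ H ∈ L, c ∈ H ∧ x ∈ H) →
        Good (X.map (fun x => ({u, c, x} : Finset (Fin n))) ++ L)
  | [], _, _, _, _ => h
  | x :: X, hX, hc, hu', hcov => by
    rw [List.nodup_cons] at hX
    simp only [List.mem_cons, not_or] at hc hu'
    refine ⟨Good.star h hu huc X hX.2 hc.2 hu'.2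
      (fun y hy => hcov y (List.mem_cons_of_mem _ hy)), ?_⟩
    intro G hG
    rcases List.mem_append.1 hG with hG' | hG'
    · obtain ⟨y, hy, rfl⟩ := List.mem_map.1 hG'
      have hxy : x ≠ y := fun e => hX.1 (e ▸ hy)
      refine ⟨x, by simp, ?_, ({u, c, y} : Finset (Fin n)), hG, ?_⟩
      · simp only [Finset.mem_insert, Finset.mem_singleton, not_or]
        exact ⟨Ne.symm hu'.1, Ne.symm hc.1, hxy⟩
      · intro w hw
        simp only [Finset.mem_erase, Finset.mem_insert, Finset.mem_singleton] at hw ⊢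
        tauto
    · obtain ⟨H, hH, hcH, hxH⟩ := hcov x (List.mem_cons_self ..)
      refine ⟨u, by simp, hu G hG', H, List.mem_append.2 (Or.inr hH), ?_⟩
      intro w hw
      simp only [Finset.mem_erase, Finset.mem_insert, Finset.mem_singleton] at hw
      rcases hw with ⟨h1, h2 | rfl | rfl⟩
      · exact absurd h2 h1
      · exact hcH
      · exact hxH

lemma Good.fill {L : List (Finset (Fin n))} (h : Good L) (hc : ∀ t ∈ L, t.card = 3)
    (hcov : ∀ x y : Fin n, ∃ t ∈ L, x ∈ t ∧ y ∈ t) : ∀ Y : List (Finset (Fin n)), Y.Nodup →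
      (∀ t ∈ Y, t.card = 3 ∧ t ∉ L) → Good (Y ++ L)
  | [], _, _ => h
  | t :: Y, hY, hY3 => by
    rw [List.nodup_cons] at hY
    refine ⟨Good.fill h hc hcov Y hY.2 (fun s hs => hY3 s (List.mem_cons_of_mem _ hs)), ?_⟩
    obtain ⟨ht3, htL⟩ := hY3 t (List.mem_cons_self ..)
    intro G hG
    have hG3 : G.card = 3 ∧ G ≠ t := by
      rcases List.mem_append.1 hG with hG | hG
      · exact ⟨(hY3 G (List.mem_cons_of_mem _ hG)).1, fun e => hY.1 (e ▸ hG)⟩
      · exact ⟨hc G hG, fun e => htL (e ▸ hG)⟩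
    obtain ⟨v, hv, hvG⟩ : ∃ v ∈ t, v ∉ G := by
      by_contra hcon
      push Not at hcon
      exact hG3.2 (Finset.eq_of_subset_of_card_le hcon (by rw [ht3, hG3.1])).symm
    have h2 : (t.erase v).card = 2 := by
      rw [Finset.card_erase_of_mem hv, ht3]
    obtain ⟨x, y, -, hxy⟩ := Finset.card_eq_two.1 h2
    obtain ⟨H, hH, hxH, hyH⟩ := hcov x y
    refine ⟨v, hv, hvG, H, List.mem_append.2 (Or.inr hH), ?_⟩
    rw [hxy]
    intro w hw
    simp only [Finset.mem_insert, Finset.mem_singleton] at hw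
    rcases hw with rfl | rfl
    · exact hxH
    · exact hyH

lemma card_triple {a b c : Fin n} (hab : a ≠ b) (hac : a ≠ c) (hbc : b ≠ c) :
    ({a, b, c} : Finset (Fin n)).card = 3 :=
  Finset.card_eq_three.2 ⟨a, b, c, hab, hac, hbc, rfl⟩

lemma of_card_triple {a b c : Fin n} (h : 2 < ({a, b, c} : Finset (Fin n)).card) :
    a ≠ b ∧ a ≠ c ∧ b ≠ c := by
  refine ⟨?_, ?_, ?_⟩
  · rintro rfl
    have : ({a, a, c} : Finset (Fin n)) = {a, c} := by simp
    rw [this] at h
    exact absurd (Finset.card_le_two (a := a) (b := c)) (by omega)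
  · rintro rfl
    have : ({a, b, a} : Finset (Fin n)) = {a, b} := by
      ext w; simp only [Finset.mem_insert, Finset.mem_singleton]; tauto
    rw [this] at h
    exact absurd (Finset.card_le_two (a := a) (b := b)) (by omega)
  · rintro rfl
    have : ({a, b, b} : Finset (Fin n)) = {a, b} := by simp
    rw [this] at h
    exact absurd (Finset.card_le_two (a := a) (b := b)) (by omega)

lemma P.succ {L : List (Finset (Fin n))} (h : P L) (hn : 2 ≤ n) :
    ∃ L' : List (Finset (Fin (n + 1))), P L' := by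
  classical
  let c : Fin n := ⟨0, by omega⟩
  let x0 : Fin n := ⟨1, by omega⟩
  have hx0 : x0 ≠ c := by simp [x0, c, Fin.ext_iff]
  let L1 : List (Finset (Fin (n + 1))) := L.map fun t => t.map Fin.castSuccEmb
  let X : List (Fin (n + 1)) := ((Finset.univ.erase c).map Fin.castSuccEmb).toList
  let L2 : List (Finset (Fin (n + 1))) :=
    X.map (fun x => ({Fin.last n, c.castSucc, x} : Finset (Fin (n + 1))))
  let q : Finset (Fin (n + 1)) → Prop := fun t =>
    t.card = 3 ∧ ((t.image (proj c)).card ≤ 2 ∨ t.image (proj c) ∈ L)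
  let L3 : List (Finset (Fin (n + 1))) :=
    (Finset.univ.filter fun t => q t ∧ t ∉ L2 ++ L1).toList
  have hX : ∀ x, x ∈ X ↔ ∃ y : Fin n, y ≠ c ∧ y.castSucc = x := by
    intro x
    simp only [X, Finset.mem_toList, Finset.mem_map, Finset.mem_erase, Finset.mem_univ, and_true]
    exact Iff.rfl
  have hL1 : ∀ t ∈ L1, q t := by
    intro t ht
    obtain ⟨s, hs, rfl⟩ := List.mem_map.1 ht
    refine ⟨by rw [Finset.card_map]; exact h.card s hs, Or.inr ?_⟩
    rw [image_map]
    exact hs
  have hstar : ∀ y : Fin n, y ≠ c →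
      q ({Fin.last n, c.castSucc, y.castSucc} : Finset (Fin (n + 1))) := by
    intro y hy
    refine ⟨card_triple (Fin.castSucc_lt_last c).ne' (Fin.castSucc_lt_last y).ne'
      (fun e => hy (Fin.castSucc_injective n e).symm), Or.inl ?_⟩
    have : ({Fin.last n, c.castSucc, y.castSucc} : Finset (Fin (n + 1))).image (proj c)
        = {c, y} := by
      rw [Finset.image_insert, Finset.image_insert, Finset.image_singleton, proj_last,
        proj_castSucc, proj_castSucc]
      simp
    rw [this]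
    exact Finset.card_le_two
  have hL2 : ∀ t ∈ L2, q t := by
    intro t ht
    obtain ⟨x, hx, rfl⟩ := List.mem_map.1 ht
    obtain ⟨y, hy, rfl⟩ := (hX x).1 hx
    exact hstar y hy
  have hmem : ∀ t, t ∈ L3 ++ (L2 ++ L1) ↔ q t := by
    intro t
    rw [List.mem_append]
    constructor
    · rintro (h3 | h3)
      · rw [Finset.mem_toList, Finset.mem_filter] at h3
        exact h3.2.1
      · rcases List.mem_append.1 h3 with h3 | h3
        · exact hL2 t h3
        · exact hL1 t h3
    · intro hq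
      by_cases h3 : t ∈ L2 ++ L1
      · exact Or.inr h3
      · refine Or.inl ?_
        rw [Finset.mem_toList, Finset.mem_filter]
        exact ⟨Finset.mem_univ _, hq, h3⟩
  have hlast : ∀ G ∈ L1, Fin.last n ∉ G := by
    intro G hG hl
    obtain ⟨s, hs, rfl⟩ := List.mem_map.1 hG
    obtain ⟨w, hw, he⟩ := Finset.mem_map.1 hl
    exact (Fin.castSucc_lt_last w).ne he
  have hcovold : ∀ x y : Fin n, ∃ t ∈ L1, x.castSucc ∈ t ∧ y.castSucc ∈ t := by
    intro x y
    obtain ⟨t, ht, hx, hy⟩ := h.cover x y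
    exact ⟨_, List.mem_map.2 ⟨t, ht, rfl⟩, Finset.mem_map_of_mem Fin.castSuccEmb hx,
      Finset.mem_map_of_mem Fin.castSuccEmb hy⟩
  have hmemL2 : ∀ y : Fin n, y ≠ c →
      ({Fin.last n, c.castSucc, y.castSucc} : Finset (Fin (n + 1))) ∈ L2 :=
    fun y hy => List.mem_map.2 ⟨y.castSucc, (hX _).2 ⟨y, hy, rfl⟩, rfl⟩
  have hcov : ∀ x y : Fin (n + 1), ∃ t ∈ L2 ++ L1, x ∈ t ∧ y ∈ t := by
    have hl : ∀ y : Fin (n + 1), ∃ t ∈ L2 ++ L1, Fin.last n ∈ t ∧ y ∈ t := by
      intro y
      rcases Fin.eq_castSucc_or_eq_last y with ⟨y, rfl⟩ | rfl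
      · by_cases hy : y = c
        · refine ⟨_, List.mem_append.2 (Or.inl (hmemL2 x0 hx0)), by simp, ?_⟩
          rw [hy]; simp
        · exact ⟨_, List.mem_append.2 (Or.inl (hmemL2 y hy)), by simp, by simp⟩
      · exact ⟨_, List.mem_append.2 (Or.inl (hmemL2 x0 hx0)), by simp, by simp⟩
    intro x y
    rcases Fin.eq_castSucc_or_eq_last x with ⟨x, rfl⟩ | rfl
    · rcases Fin.eq_castSucc_or_eq_last y with ⟨y, rfl⟩ | rfl
      · obtain ⟨t, ht, h1, h2⟩ := hcovold x y
        exact ⟨t, List.mem_append.2 (Or.inr ht), h1, h2⟩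
      · obtain ⟨t, ht, h1, h2⟩ := hl x.castSucc
        exact ⟨t, ht, h2, h1⟩
    · exact hl y
  have hgood2 : Good (L2 ++ L1) := by
    refine Good.star (Good.map h.good) hlast (Fin.castSucc_lt_last c).ne' X
      (Finset.nodup_toList _) ?_ ?_ ?_
    · rw [hX]
      rintro ⟨y, hy, he⟩
      exact hy (Fin.castSucc_injective n he)
    · rw [hX]
      rintro ⟨y, hy, he⟩
      exact (Fin.castSucc_lt_last y).ne he
    · intro x hx
      obtain ⟨y, hy, rfl⟩ := (hX x).1 hx
      exact hcovold c y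
  have hnot : ∀ x y z : Fin (n + 1), proj c x ≠ proj c y → proj c x ≠ proj c z →
      proj c y ≠ proj c z → ({proj c x, proj c y, proj c z} : Finset (Fin n)) ∉ L →
        ({x, y, z} : Finset (Fin (n + 1))) ∉ L3 ++ (L2 ++ L1) := by
    intro x y z hxy hxz hyz hL
    rw [hmem]
    rintro ⟨-, h2⟩
    rw [Finset.image_insert, Finset.image_insert, Finset.image_singleton] at h2
    rcases h2 with h2 | h2
    · rw [card_triple hxy hxz hyz] at h2
      omega
    · exact hL h2
  refine ⟨L3 ++ (L2 ++ L1), ⟨fun t ht => ((hmem t).1 ht).1, ?_, ?_, ?_, ?_⟩⟩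
  · intro x y
    obtain ⟨t, ht, h1, h2⟩ := hcov x y
    exact ⟨t, List.mem_append.2 (Or.inr ht), h1, h2⟩
  · intro a b e d hab hae hbe hda hdb hde hno
    rw [hmem] at hno
    have h3 : ¬ ((({a, b, e} : Finset (Fin (n + 1))).image (proj c)).card ≤ 2 ∨
        ({a, b, e} : Finset (Fin (n + 1))).image (proj c) ∈ L) :=
      fun hcon => hno ⟨card_triple hab hae hbe, hcon⟩
    rw [Finset.image_insert, Finset.image_insert, Finset.image_singleton, not_or, not_le] at h3
    obtain ⟨h4, h5⟩ := h3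
    obtain ⟨pab, pae, pbe⟩ := of_card_triple h4
    by_cases e1 : proj c d = proj c a
    · right; right
      refine hnot b e d pbe (by rw [e1]; exact pab.symm) (by rw [e1]; exact pae.symm) ?_
      rw [e1]
      convert h5 using 2
      ext w
      simp only [Finset.mem_insert, Finset.mem_singleton]
      tauto
    by_cases e2 : proj c d = proj c b
    · right; left
      refine hnot a e d pae (by rw [e2]; exact pab) (by rw [e2]; exact pbe.symm) ?_
      rw [e2]
      convert h5 using 2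
      ext w
      simp only [Finset.mem_insert, Finset.mem_singleton]
      tauto
    by_cases e3 : proj c d = proj c e
    · left
      refine hnot a b d pab (by rw [e3]; exact pae) (by rw [e3]; exact pbe) ?_
      rw [e3]
      exact h5
    rcases h.four _ _ _ _ pab pae pbe e1 e2 e3 h5 with h6 | h6 | h6
    · exact Or.inl (hnot a b d pab (Ne.symm e1) (Ne.symm e2) h6)
    · exact Or.inr (Or.inl (hnot a e d pae (Ne.symm e1) (Ne.symm e3) h6))
    · exact Or.inr (Or.inr (hnot b e d pbe (Ne.symm e2) (Ne.symm e3) h6))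
  · obtain ⟨N, hN3, hNL⟩ := h.miss
    refine ⟨N.map Fin.castSuccEmb, by rw [Finset.card_map]; exact hN3, ?_⟩
    rw [hmem]
    rintro ⟨-, h2⟩
    rw [image_map] at h2
    rcases h2 with h2 | h2
    · omega
    · exact hNL h2
  · refine Good.fill hgood2 ?_ hcov L3 (Finset.nodup_toList _) ?_
    · intro t ht
      rcases List.mem_append.1 ht with h3 | h3
      · exact (hL2 t h3).1
      · exact (hL1 t h3).1
    · intro t ht
      rw [Finset.mem_toList, Finset.mem_filter] at ht
      exact ⟨ht.2.1.1, ht.2.2⟩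

/-! ### Eight vertices -/

/-- The vertices of a set given by a bit mask. -/
def S (m : ℕ) : Finset (Fin 8) := Finset.univ.filter fun v => m.testBit v = true

lemma mem_S {m : ℕ} {v : Fin 8} : v ∈ S m ↔ m.testBit v = true := by simp [S]

/-- The masks of the 21 triangles, the last one first. -/
def M : List ℕ :=
  [138, 137, 168, 97, 52, 37, 164, 224, 98, 70, 208, 88, 146, 56, 134, 76, 50, 19, 25, 13, 7]

/-- The 21 triangles, the last one first. -/
def L8 : List (Finset (Fin 8)) := M.map S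

instance decGood : (L : List (Finset (Fin n))) → Decidable (Good L)
  | [] => isTrue trivial
  | _ :: L => @instDecidableAnd _ _ (decGood L) inferInstance

lemma good8 : Good L8 := by decide +kernel

lemma card8 : ∀ t ∈ L8, t.card = 3 := by decide +kernel

lemma cover8 : ∀ x y : Fin 8, ∃ t ∈ L8, x ∈ t ∧ y ∈ t := by decide +kernel

lemma M_lt : ∀ m ∈ M, m < 2 ^ 8 := by decide +kernel

lemma masks4 : ∀ a b c d : Fin 8, a ≠ b → a ≠ c → b ≠ c → d ≠ a → d ≠ b → d ≠ c →
    2 ^ a.val ||| 2 ^ b.val ||| 2 ^ c.val ∉ M →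
      2 ^ a.val ||| 2 ^ b.val ||| 2 ^ d.val ∉ M ∨ 2 ^ a.val ||| 2 ^ c.val ||| 2 ^ d.val ∉ M ∨
        2 ^ b.val ||| 2 ^ c.val ||| 2 ^ d.val ∉ M := by decide +kernel

lemma S_triple (a b c : Fin 8) : S (2 ^ a.val ||| 2 ^ b.val ||| 2 ^ c.val) = {a, b, c} := by
  ext v
  rw [mem_S]
  simp only [Nat.testBit_or, Nat.testBit_two_pow, Bool.or_eq_true, decide_eq_true_eq,
    Finset.mem_insert, Finset.mem_singleton, Fin.ext_iff]
  constructor
  · rintro ((h | h) | h)
    · exact Or.inl h.symm
    · exact Or.inr (Or.inl h.symm)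
    · exact Or.inr (Or.inr h.symm)
  · rintro (h | h | h)
    · exact Or.inl (Or.inl h.symm)
    · exact Or.inl (Or.inr h.symm)
    · exact Or.inr h.symm

lemma S_inj {m k : ℕ} (hm : m < 2 ^ 8) (hk : k < 2 ^ 8) (h : S m = S k) : m = k := by
  refine Nat.eq_of_testBit_eq fun i => ?_
  rcases Nat.lt_or_ge i 8 with hi | hi
  · have h1 : (⟨i, hi⟩ : Fin 8) ∈ S m ↔ (⟨i, hi⟩ : Fin 8) ∈ S k := by rw [h]
    rw [mem_S, mem_S] at h1
    exact Bool.eq_iff_iff.2 h1
  · rw [Nat.testBit_lt_two_pow (lt_of_lt_of_le hm (Nat.pow_le_pow_right (by norm_num) hi)),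
      Nat.testBit_lt_two_pow (lt_of_lt_of_le hk (Nat.pow_le_pow_right (by norm_num) hi))]

lemma mem_L8 (a b c : Fin 8) :
    ({a, b, c} : Finset (Fin 8)) ∈ L8 ↔ 2 ^ a.val ||| 2 ^ b.val ||| 2 ^ c.val ∈ M := by
  constructor
  · intro h
    obtain ⟨m, hm, he⟩ := List.mem_map.1 h
    rw [← S_triple] at he
    have hlt : 2 ^ a.val ||| 2 ^ b.val ||| 2 ^ c.val < 2 ^ 8 :=
      Nat.or_lt_two_pow (Nat.or_lt_two_pow (Nat.pow_lt_pow_right (by norm_num) a.isLt)
        (Nat.pow_lt_pow_right (by norm_num) b.isLt)) (Nat.pow_lt_pow_right (by norm_num) c.isLt)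
    rw [← S_inj (M_lt m hm) hlt he]
    exact hm
  · intro h
    rw [← S_triple]
    exact List.mem_map.2 ⟨_, h, rfl⟩

lemma P8 : P L8 where
  card := card8
  cover := cover8
  four := by
    intro a b c d h1 h2 h3 h4 h5 h6 h
    rw [mem_L8] at h
    simp only [mem_L8]
    exact masks4 a b c d h1 h2 h3 h4 h5 h6 h
  miss := ⟨{0, 1, 3}, by decide +kernel, by decide +kernel⟩
  good := good8

lemma exists_P (n : ℕ) (hn : 8 ≤ n) : ∃ L : List (Finset (Fin n)), P L := by
  induction n, hn using Nat.le_induction with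
  | base => exact ⟨L8, P8⟩
  | succ m hm ih =>
    obtain ⟨L, hL⟩ := ih
    exact hL.succ (by omega)

/-- For every `n ≥ 8` there is a shellable simplicial complex on `n` vertices, pure of dimension
two and with complete one-skeleton, whose Alexander dual is not `(n - 4)`-chordal. -/
theorem result : ∀ n : ℕ, 8 ≤ n → ∃ Γ : Set (Finset (Fin n)),
    IsComplex Γ ∧ Shellable Γ ∧ (∀ F : Finset (Fin n), IsFacet Γ F → F.card = 3) ∧
      (∀ F : Finset (Fin n), F.card ≤ 2 → F ∈ Γ) ∧ ¬ DChordal (n - 4) (dual Γ) := by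
  intro n hn
  obtain ⟨L, hL⟩ := exists_P n hn
  refine ⟨gen L, ?_, hL.shellable, fun F hF => hL.card F ((hL.facet_iff F).2 hF),
    fun F hF => hL.cover' (by omega) F hF, hL.not_chordal (by omega)⟩
  rintro F ⟨H, hH, hFH⟩ G hG
  exact ⟨H, hH, hG.trans hFH⟩

end Pool.Agent.Results.MP_14e604_al.DimensionTwo
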